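import Pool.Agent.HoroO.Order

set_option autoImplicit false

/-!
# The sharp Melchior inequality for periodic arrangements
-/

open Finset Filter Topology

namespace Pool.Agent.HoroO

variable {α : Type*} {P : Finset α} {F : α → ℝ → ℝ} {T : ℝ} {V : Finset (ℝ × ℝ)}

/-- there is a vertex at `x` in the way of rank `j` -/
def Touch (P : Finset α) (F : α → ℝ → ℝ) (j : ℕ) (x : ℝ) : Prop :=
  ∃ s, bel P F x s < j ∧ j < lev P F x s

/-- `V` is the set of vertices in a period -/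
def IsVer (P : Finset α) (F : α → ℝ → ℝ) (T : ℝ) (V : Finset (ℝ × ℝ)) : Prop :=
  ∀ v : ℝ × ℝ, v ∈ V ↔ 0 ≤ v.1 ∧ v.1 < T ∧ bel P F v.1 v.2 + 2 ≤ lev P F v.1 v.2

theorem touch_per (h : Arr P F T) {j : ℕ} {x : ℝ} (m : ℤ) :
    Touch P F j (x + m * T) ↔ Touch P F j x := by
  unfold Touch
  simp only [h.bel_per, h.lev_per]

theorem touch_val {j : ℕ} {x s t : ℝ} (h1 : bel P F x s < j) (h2 : j < lev P F x s)
    (h3 : bel P F x t < j) (h4 : j < lev P F x t) : s = t := by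
  rcases lt_trichotomy s t with h | h | h
  · have := lev_le_bel (P := P) (F := F) (x := x) h
    omega
  · exact h
  · have := lev_le_bel (P := P) (F := F) (x := x) h
    omega

theorem exists_next (h : Arr P F T) (hV : IsVer P F T V) {j : ℕ} {a : ℝ} (ha : 0 ≤ a)
    (haT : a < T) (ht : Touch P F j a) :
    ∃ b, a < b ∧ b ≤ a + T ∧ Touch P F j b ∧ ∀ x ∈ Set.Ioo a b, ¬ Touch P F j x := by
  classical
  set C := ((V.image Prod.fst) ∪ (V.image fun v => v.1 + T)).filter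
    (fun x => a < x ∧ Touch P F j x) with hC
  have hper1 : Touch P F j (a + T) := by
    have := (touch_per h (j := j) (x := a) 1).mpr ht
    push_cast at this
    rwa [one_mul] at this
  have hmem : ∀ x, a < x → x ≤ a + T → Touch P F j x → x ∈ C := by
    intro x h1 h2 h3
    rw [hC, Finset.mem_filter, Finset.mem_union, Finset.mem_image, Finset.mem_image]
    refine ⟨?_, h1, h3⟩
    rcases lt_or_ge x T with h4 | h4
    · left
      obtain ⟨s, hs1, hs2⟩ := h3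
      exact ⟨(x, s), (hV (x, s)).mpr ⟨by simp only; linarith, h4, by simp only; omega⟩, rfl⟩
    · right
      have h5 : Touch P F j (x - T) := by
        have := (touch_per h (j := j) (x := x) (-1)).mpr h3
        push_cast at this
        rw [show x - T = x + -1 * T by ring]
        exact this
      obtain ⟨s, hs1, hs2⟩ := h5
      exact ⟨(x - T, s), (hV (x - T, s)).mpr ⟨by simp only; linarith, by simp only; linarith,
        by simp only; omega⟩, by simp only; ring⟩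
  have hne : C.Nonempty := ⟨a + T, hmem _ (by linarith [h.pos]) le_rfl hper1⟩
  have hmin := Finset.min'_mem C hne
  set b := C.min' hne with hb
  rw [hC, Finset.mem_filter] at hmin
  have hle : ∀ x ∈ C, b ≤ x := fun x hx => Finset.min'_le _ _ hx
  have hbT : b ≤ a + T := hle _ (hmem _ (by linarith [h.pos]) le_rfl hper1)
  refine ⟨b, hmin.2.1, hbT, hmin.2.2, fun x hx ht => ?_⟩
  have := hle x (hmem x hx.1 (hx.2.le.trans hbT) ht)
  exact absurd hx.2 (not_lt.mpr this)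

theorem same_start (h : Arr P F T) {j : ℕ} {a₁ a₂ b₁ b₂ x₁ x₂ : ℝ} {m₁ m₂ : ℤ} (ha1 : 0 ≤ a₁)
    (ha1T : a₁ < T) (ha2 : 0 ≤ a₂) (ha2T : a₂ < T) (t1 : Touch P F j a₁) (t2 : Touch P F j a₂)
    (n1 : ∀ x ∈ Set.Ioo a₁ b₁, ¬ Touch P F j x) (n2 : ∀ x ∈ Set.Ioo a₂ b₂, ¬ Touch P F j x)
    (hx1 : x₁ ∈ Set.Ioo a₁ b₁) (hx2 : x₂ ∈ Set.Ioo a₂ b₂) (hx : x₁ + m₁ * T = x₂ + m₂ * T) :
    a₁ = a₂ := by
  have e1 : x₁ = x₂ + ((m₂ - m₁ : ℤ) : ℝ) * T := by
    push_cast
    linarith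
  have e2 : x₂ = x₁ + ((m₁ - m₂ : ℤ) : ℝ) * T := by
    push_cast
    linarith
  have i1 : a₂ + ((m₂ - m₁ : ℤ) : ℝ) * T ≤ a₁ := by
    by_contra hcon
    rw [not_le] at hcon
    refine n1 _ ⟨hcon, ?_⟩ ((touch_per h _).mpr t2)
    linarith [hx1.2, hx2.1]
  have i2 : a₁ + ((m₁ - m₂ : ℤ) : ℝ) * T ≤ a₂ := by
    by_contra hcon
    rw [not_le] at hcon
    refine n2 _ ⟨hcon, ?_⟩ ((touch_per h _).mpr t1)
    linarith [hx2.2, hx1.1]
  have e3 : a₁ - a₂ = ((m₂ - m₁ : ℤ) : ℝ) * T := by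
    push_cast at i1 i2 ⊢
    linarith
  have e4 : m₂ - m₁ = 0 := by
    have hp := h.pos
    have h1 : ((m₂ - m₁ : ℤ) : ℝ) < 1 := by
      by_contra hcon
      rw [not_lt] at hcon
      nlinarith
    have h2 : (-1 : ℝ) < ((m₂ - m₁ : ℤ) : ℝ) := by
      by_contra hcon
      rw [not_lt] at hcon
      nlinarith
    have h3 : m₂ - m₁ < 1 := by exact_mod_cast h1
    have h4 : -1 < m₂ - m₁ := by exact_mod_cast h2
    omega
  rw [e4] at e3
  push_cast at e3
  linarith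

theorem exists_red (h : Arr P F T) (x : ℝ) : ∃ m : ℤ, 0 ≤ x + m * T ∧ x + m * T < T := by
  obtain ⟨m, hm, -⟩ := existsUnique_add_zsmul_mem_Ico h.pos x 0
  rw [zsmul_eq_mul, zero_add] at hm
  exact ⟨m, hm.1, hm.2⟩

/-- at least two vertices on the upper envelope -/
theorem two_top (h : Arr P F T) (hV : IsVer P F T V) :
    2 ≤ #{v ∈ V | lev P F v.1 v.2 = #P} := by
  classical
  by_contra hcon
  have hle : #{v ∈ V | lev P F v.1 v.2 = #P} ≤ 1 := by omega
  rw [Finset.card_le_one] at hle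
  obtain ⟨x0, hx0⟩ : ∃ x0 : ℝ, ∀ v ∈ ({v ∈ V | lev P F v.1 v.2 = #P} : Finset (ℝ × ℝ)),
      v.1 = x0 := by
    by_cases hne : ({v ∈ V | lev P F v.1 v.2 = #P} : Finset (ℝ × ℝ)).Nonempty
    · obtain ⟨v0, hv0⟩ := hne
      exact ⟨v0.1, fun v hv => by rw [hle v hv v0 hv0]⟩
    · exact ⟨0, fun v hv => absurd ⟨v, hv⟩ hne⟩
  have hT := h.pos
  obtain ⟨z, B, hz⟩ := const_sim h.cont (j := #P) (by have := h.two; omega) le_rfl
    (show x0 < x0 + T by linarith) (by
      intro x hx s h1 h2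
      by_contra hc
      rw [not_lt] at hc
      obtain ⟨m, hm1, hm2⟩ := exists_red h x
      have h3 : (x + m * T, s) ∈ ({v ∈ V | lev P F v.1 v.2 = #P} : Finset (ℝ × ℝ)) := by
        rw [Finset.mem_filter]
        refine ⟨(hV _).mpr ⟨hm1, hm2, ?_⟩, ?_⟩
        · simp only [h.bel_per, h.lev_per]
          exact hc
        · simp only [h.lev_per]
          exact le_antisymm (lev_le_card _ _) h2
      have h4 := hx0 _ h3
      simp only at h4
      have h5 : -(m : ℝ) * T = x - x0 := by linarith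
      have h6 : (0 : ℝ) < -(m : ℝ) := by
        by_contra hcc
        rw [not_lt] at hcc
        nlinarith [hx.1]
      have h7 : -(m : ℝ) < 1 := by
        by_contra hcc
        rw [not_lt] at hcc
        nlinarith [hx.2]
      have h8 : (0 : ℤ) < -m := by exact_mod_cast h6
      have h9 : -m < (1 : ℤ) := by exact_mod_cast h7
      omega)
  have hm : x0 + T / 2 ∈ Set.Ioo x0 (x0 + T) := ⟨by linarith, by linarith⟩
  obtain ⟨z1, z2, z3, z4, -⟩ := hz _ hm
  have hzB : z ∉ B := fun hh => lt_irrefl _ ((z4 z z1).mp hh)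
  have hB : insert z B = P := by
    refine Finset.eq_of_subset_of_card_le (Finset.insert_subset z1 z3) ?_
    rw [Finset.card_insert_of_notMem hzB]
    omega
  obtain ⟨w, hw, hwz⟩ := Finset.exists_mem_ne (show 1 < #P from h.two) z
  have hwB : w ∈ B := by
    rw [← hB, Finset.mem_insert] at hw
    exact hw.resolve_left hwz
  have h1 : ∀ x ∈ Set.Ioo x0 (x0 + T), F w x < F z x := fun x hx =>
    ((hz x hx).2.2.2.1 w (z3 hwB)).mp hwB
  have h2 := le_of_lt_Ioo (h.cont w) (h.cont z) (show x0 < x0 + T by linarith) h1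
  obtain ⟨x, hx⟩ := h.lt z z1 w (z3 hwB) hwz.symm
  obtain ⟨m, hm, -⟩ := existsUnique_add_zsmul_mem_Ico h.pos x x0
  rw [zsmul_eq_mul] at hm
  have h3 := h2 (x + m * T) ⟨hm.1, hm.2.le⟩
  rw [h.per', h.per'] at h3
  linarith

/-- the sharp Melchior inequality -/
theorem melchior_sharp (h : Arr P F T) (hV : IsVer P F T V) :
    ∑ v ∈ V, (lev P F v.1 v.2 - bel P F v.1 v.2) + 2 ≤ 3 * #V := by
  classical
  set E := V.sigma (fun v => Finset.Ioo (bel P F v.1 v.2) (lev P F v.1 v.2)) with hE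
  have hEm : ∀ e ∈ E, e.1 ∈ V ∧ bel P F e.1.1 e.1.2 < e.2 ∧ e.2 < lev P F e.1.1 e.1.2 := by
    intro e he
    rw [hE, Finset.mem_sigma, Finset.mem_Ioo] at he
    exact he
  have hnx : ∀ e : (_ : ℝ × ℝ) × ℕ, e ∈ E → ∃ b, e.1.1 < b ∧ b ≤ e.1.1 + T ∧ Touch P F e.2 b ∧
      ∀ x ∈ Set.Ioo e.1.1 b, ¬ Touch P F e.2 x := by
    intro e he
    obtain ⟨h1, h2, h3⟩ := hEm e he
    have h4 := (hV e.1).mp h1
    exact exists_next h hV h4.1 h4.2.1 ⟨e.1.2, h2, h3⟩
  choose! nx n1 n2 n3 n4 using hnx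
  set Up : (_ : ℝ × ℝ) × ℕ → Prop := fun e => ∃ x ∈ Set.Ioo e.1.1 (nx e), ∃ s,
    bel P F x s = e.2 ∧ bel P F x s + 2 ≤ lev P F x s with hUp
  set Dn : (_ : ℝ × ℝ) × ℕ → Prop := fun e => ∃ x ∈ Set.Ioo e.1.1 (nx e), ∃ s,
    lev P F x s = e.2 ∧ bel P F x s + 2 ≤ lev P F x s with hDn
  have hinj : ∀ e ∈ E, ∀ e' ∈ E, e.2 = e'.2 → ∀ x ∈ Set.Ioo e.1.1 (nx e),
      ∀ x' ∈ Set.Ioo e'.1.1 (nx e'), ∀ m m' : ℤ, x + m * T = x' + m' * T → e = e' := by
    intro e he e' he' hj x hx x' hx' m m' hxx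
    obtain ⟨h1, h2, h3⟩ := hEm e he
    obtain ⟨h1', h2', h3'⟩ := hEm e' he'
    have h4 := (hV e.1).mp h1
    have h4' := (hV e'.1).mp h1'
    have n4e := n4 e he
    have n4e' := n4 e' he'
    rw [hj] at n4e h2 h3
    have h5 := same_start h h4.1 h4.2.1 h4'.1 h4'.2.1 ⟨e.1.2, h2, h3⟩ ⟨e'.1.2, h2', h3'⟩
      n4e n4e' hx hx' hxx
    obtain ⟨⟨a, s⟩, j⟩ := e
    obtain ⟨⟨a', s'⟩, j'⟩ := e'
    simp only at hj h5 h2 h3 h2' h3'
    subst hj
    subst h5
    rw [touch_val h2 h3 h2' h3']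
  have c1 : #{e ∈ E | Up e} ≤ #{v ∈ V | ¬ bel P F v.1 v.2 = 0} := by
    have hch : ∀ e : (_ : ℝ × ℝ) × ℕ, e ∈ ({e ∈ E | Up e} : Finset _) →
        ∃ (x s : ℝ) (m : ℤ), x ∈ Set.Ioo e.1.1 (nx e) ∧
        bel P F x s = e.2 ∧ bel P F x s + 2 ≤ lev P F x s ∧ 0 ≤ x + m * T ∧ x + m * T < T := by
      intro e he
      obtain ⟨x, hx, s, h1, h2⟩ := (Finset.mem_filter.mp he).2
      obtain ⟨m, hm1, hm2⟩ := exists_red h x
      exact ⟨x, s, m, hx, h1, h2, hm1, hm2⟩
    choose! xx ss mm k1 k2 k3 k4 k5 using hch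
    refine Finset.card_le_card_of_injOn (fun e => (xx e + mm e * T, ss e)) ?_ ?_
    · intro e he
      have he' := hEm e (Finset.mem_filter.mp he).1
      rw [Finset.mem_coe, Finset.mem_filter, hV]
      simp only [h.bel_per, h.lev_per]
      refine ⟨⟨k4 e he, k5 e he, k3 e he⟩, ?_⟩
      rw [k2 e he]
      omega
    · intro e he e' he' hee
      simp only [Prod.mk.injEq] at hee
      have hj : e.2 = e'.2 := by
        rw [← k2 e he, ← k2 e' he', ← h.bel_per (xx e) (ss e) (mm e),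
          ← h.bel_per (xx e') (ss e') (mm e'), hee.1, hee.2]
      exact hinj e (Finset.mem_filter.mp he).1 e' (Finset.mem_filter.mp he').1 hj _ (k1 e he) _
        (k1 e' he') _ _ hee.1
  have c2 : #{e ∈ E | ¬ Up e ∧ Dn e} ≤ #{v ∈ V | ¬ lev P F v.1 v.2 = #P} := by
    have hch : ∀ e : (_ : ℝ × ℝ) × ℕ, e ∈ ({e ∈ E | ¬ Up e ∧ Dn e} : Finset _) →
        ∃ (x s : ℝ) (m : ℤ), x ∈ Set.Ioo e.1.1 (nx e) ∧
        lev P F x s = e.2 ∧ bel P F x s + 2 ≤ lev P F x s ∧ 0 ≤ x + m * T ∧ x + m * T < T := by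
      intro e he
      obtain ⟨x, hx, s, h1, h2⟩ := (Finset.mem_filter.mp he).2.2
      obtain ⟨m, hm1, hm2⟩ := exists_red h x
      exact ⟨x, s, m, hx, h1, h2, hm1, hm2⟩
    choose! xx ss mm k1 k2 k3 k4 k5 using hch
    refine Finset.card_le_card_of_injOn (fun e => (xx e + mm e * T, ss e)) ?_ ?_
    · intro e he
      have he' := hEm e (Finset.mem_filter.mp he).1
      have hle := lev_le_card (P := P) (F := F) e.1.1 e.1.2
      rw [Finset.mem_coe, Finset.mem_filter, hV]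
      simp only [h.bel_per, h.lev_per]
      refine ⟨⟨k4 e he, k5 e he, k3 e he⟩, ?_⟩
      rw [k2 e he]
      omega
    · intro e he e' he' hee
      simp only [Prod.mk.injEq] at hee
      have hj : e.2 = e'.2 := by
        rw [← k2 e he, ← k2 e' he', ← h.lev_per (xx e) (ss e) (mm e),
          ← h.lev_per (xx e') (ss e') (mm e'), hee.1, hee.2]
      exact hinj e (Finset.mem_filter.mp he).1 e' (Finset.mem_filter.mp he').1 hj _ (k1 e he) _
        (k1 e' he') _ _ hee.1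
  have c3 : #{e ∈ E | ¬ Up e ∧ ¬ Dn e} ≤ #{v ∈ V | bel P F v.1 v.2 = 0} := by
    have hj1 : ∀ e ∈ ({e ∈ E | ¬ Up e ∧ ¬ Dn e} : Finset _), e.2 = 1 := by
      intro e he
      obtain ⟨he1, he2, he3⟩ := Finset.mem_filter.mp he
      obtain ⟨h1, h2, h3⟩ := hEm e he1
      obtain ⟨t, t1, t2⟩ := n3 e he1
      refine digon h (n1 e he1) (n2 e he1) h2 h3 t1 t2 ?_
      intro x hx r hr1 hr2
      by_contra hc
      rw [not_lt] at hc
      rcases lt_or_eq_of_le hr1 with h4 | h4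
      · rcases lt_or_eq_of_le hr2 with h5 | h5
        · exact n4 e he1 x hx ⟨r, h4, h5⟩
        · exact he3 ⟨x, hx, r, h5.symm, hc⟩
      · exact he2 ⟨x, hx, r, h4, hc⟩
    refine Finset.card_le_card_of_injOn (fun e => e.1) ?_ ?_
    · intro e he
      obtain ⟨h1, h2, h3⟩ := hEm e (Finset.mem_filter.mp he).1
      rw [Finset.mem_coe, Finset.mem_filter]
      have := hj1 e he
      refine ⟨h1, ?_⟩
      change bel P F e.1.1 e.1.2 = 0
      omega
    · intro e he e' he' hee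
      have h1 := hj1 e he
      have h2 := hj1 e' he'
      obtain ⟨v, j⟩ := e
      obtain ⟨v', j'⟩ := e'
      simp only at h1 h2 hee
      rw [hee, h1, h2]
  have c4 := two_top h hV
  have s1 : #E = #{e ∈ E | Up e} + (#{e ∈ E | ¬ Up e ∧ Dn e} + #{e ∈ E | ¬ Up e ∧ ¬ Dn e}) := by
    rw [← Finset.card_filter_add_card_filter_not (s := E) (fun e => Up e)]
    congr 1
    rw [← Finset.card_filter_add_card_filter_not (s := {e ∈ E | ¬ Up e}) (fun e => Dn e),
      Finset.filter_filter, Finset.filter_filter]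
  have s2 := Finset.card_filter_add_card_filter_not (s := V) (fun v => bel P F v.1 v.2 = 0)
  have s3 := Finset.card_filter_add_card_filter_not (s := V) (fun v => lev P F v.1 v.2 = #P)
  have s4 : ∑ v ∈ V, (lev P F v.1 v.2 - bel P F v.1 v.2) = #E + #V := by
    rw [hE, Finset.card_sigma, Finset.card_eq_sum_ones V, ← Finset.sum_add_distrib]
    refine Finset.sum_congr rfl fun v hv => ?_
    have := ((hV v).mp hv).2.2
    rw [Nat.card_Ioo]
    omega
  omega

end Pool.Agent.HoroO
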