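import Pool.Agent.HoroO.Hyp
import Pool.Agent.HoroB.Fin

set_option autoImplicit false

/-!
# The sharp Melchior inequality for the horocycles determined by a finite set
-/

open Finset UpperHalfPlane Real Pool.Agent.Hhelper97.Horo
open Pool.Agent.HoroB (ff ff_mul)
open Pool.Agent.HoroB.Fin (C mem_C C_inj C_ne_hline finite_det)

namespace Pool.Agent.HoroO

/-- the horocycle of a vertex -/
def HS (v : ℝ × ℝ) : Set ℍ := {z | fn z v.1 = v.2}

theorem mem_HS {v : ℝ × ℝ} {z : ℍ} : z ∈ HS v ↔ fn z v.1 = v.2 := Iff.rfl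

theorem ff_eq (z : ℍ) {θ : ℝ} (h : cos θ ≠ 1) :
    ff z (sin θ / (1 - cos θ)) = 2 * fn z θ / (1 - cos θ) := by
  have h1 : 1 - cos θ ≠ 0 := sub_ne_zero.mpr h.symm
  have h2 := z.im_pos.ne'
  have h3 := sin_sq_add_cos_sq θ
  unfold ff fn cA cB cC
  field_simp
  linear_combination h3

theorem one_sub_cos_pos {θ : ℝ} (h : cos θ ≠ 1) : 0 < 1 - cos θ :=
  sub_pos.mpr (lt_of_le_of_ne (cos_le_one θ) h)

theorem HS_circ {v : ℝ × ℝ} (h : cos v.1 ≠ 1) :
    HS v = C (sin v.1 / (1 - cos v.1), 2 * v.2 / (1 - cos v.1)) := by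
  have h1 := one_sub_cos_pos h
  ext z
  rw [mem_HS, mem_C]
  simp only
  rw [ff_eq z h, div_left_inj' h1.ne']
  constructor
  · intro h2
    rw [h2]
  · intro h2
    linarith

theorem HS_hline {v : ℝ × ℝ} (h : cos v.1 = 1) (hv : 0 < v.2) : HS v = hline (1 / v.2) := by
  have h1 : sin v.1 = 0 := by
    have := sin_sq_add_cos_sq v.1
    rw [h] at this
    have h2 : sin v.1 ^ 2 = 0 := by linarith
    exact pow_eq_zero_iff two_ne_zero |>.mp h2
  ext z
  have h2 := z.im_pos.ne'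
  have h3 : fn z v.1 = 1 / z.im := by
    unfold fn cA cB cC
    rw [h, h1]
    field_simp
    ring
  rw [mem_HS, h3]
  change _ ↔ z.im = 1 / v.2
  constructor
  · intro h4
    rw [← h4]
    field_simp
  · intro h4
    rw [h4]
    field_simp

theorem angle_inj {θ ψ : ℝ} (h1 : 0 ≤ θ) (h2 : θ < 2 * π) (h3 : 0 ≤ ψ) (h4 : ψ < 2 * π)
    (hc : cos θ = cos ψ) (hs : sin θ = sin ψ) : θ = ψ := by
  have h5 := Real.Angle.cos_sin_inj hc hs
  rw [Real.Angle.angle_eq_iff_two_pi_dvd_sub] at h5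
  obtain ⟨k, hk⟩ := h5
  have hp : (0 : ℝ) < 2 * π := by positivity
  have h6 : (k : ℝ) < 1 := by
    by_contra hcon
    rw [not_lt] at hcon
    nlinarith
  have h7 : (-1 : ℝ) < k := by
    by_contra hcon
    rw [not_lt] at hcon
    nlinarith
  have h8 : k < 1 := by exact_mod_cast h6
  have h9 : -1 < k := by exact_mod_cast h7
  have h10 : k = 0 := by omega
  rw [h10] at hk
  push_cast at hk
  linarith

theorem cot_eq {θ : ℝ} (h : cos θ ≠ 1) :
    cos θ = ((sin θ / (1 - cos θ)) ^ 2 - 1) / ((sin θ / (1 - cos θ)) ^ 2 + 1) ∧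
    sin θ = 2 * (sin θ / (1 - cos θ)) / ((sin θ / (1 - cos θ)) ^ 2 + 1) := by
  have h1 := (one_sub_cos_pos h).ne'
  have h3 := sin_sq_add_cos_sq θ
  have h4 : (sin θ / (1 - cos θ)) ^ 2 + 1 = 2 / (1 - cos θ) := by
    field_simp
    linear_combination h3
  have h5 : (sin θ / (1 - cos θ)) ^ 2 - 1 = 2 * cos θ / (1 - cos θ) := by
    have : (sin θ / (1 - cos θ)) ^ 2 - 1 = ((sin θ / (1 - cos θ)) ^ 2 + 1) - 2 := by ring
    rw [this, h4]
    field_simp
    ring
  rw [h4, h5]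
  constructor
  · field_simp
  · field_simp

theorem HS_inj {v w : ℝ × ℝ} (hv1 : 0 ≤ v.1) (hv2 : v.1 < 2 * π) (hv : 0 < v.2) (hw1 : 0 ≤ w.1)
    (hw2 : w.1 < 2 * π) (hw : 0 < w.2) (h : HS v = HS w) : v = w := by
  by_cases h1 : cos v.1 = 1 <;> by_cases h2 : cos w.1 = 1
  · have e1 : v.1 = w.1 := by
      refine angle_inj hv1 hv2 hw1 hw2 (h1.trans h2.symm) ?_
      have a1 := sin_sq_add_cos_sq v.1
      have a2 := sin_sq_add_cos_sq w.1
      rw [h1] at a1
      rw [h2] at a2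
      have a3 : sin v.1 = 0 := pow_eq_zero_iff two_ne_zero |>.mp (by linarith)
      have a4 : sin w.1 = 0 := pow_eq_zero_iff two_ne_zero |>.mp (by linarith)
      rw [a3, a4]
    rw [HS_hline h1 hv, HS_hline h2 hw] at h
    have h3 : (⟨⟨0, 1 / v.2⟩, by simp only; positivity⟩ : ℍ) ∈ hline (1 / v.2) := rfl
    rw [h] at h3
    have h4 : 1 / v.2 = 1 / w.2 := h3
    have e2 : v.2 = w.2 := by
      field_simp at h4
      exact h4.symm
    exact Prod.ext e1 e2
  · exfalso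
    rw [HS_hline h1 hv, HS_circ h2] at h
    exact C_ne_hline (by have := one_sub_cos_pos h2; simp only; positivity) _ h.symm
  · exfalso
    rw [HS_hline h2 hw, HS_circ h1] at h
    exact C_ne_hline (by have := one_sub_cos_pos h1; simp only; positivity) _ h
  · rw [HS_circ h1, HS_circ h2] at h
    have h3 := C_inj (by have := one_sub_cos_pos h1; simp only; positivity) h
    rw [Prod.mk.injEq] at h3
    have c1 := cot_eq h1
    have c2 := cot_eq h2
    rw [h3.1] at c1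
    have e1 : v.1 = w.1 := angle_inj hv1 hv2 hw1 hw2 (c1.1.trans c2.1.symm) (c1.2.trans c2.2.symm)
    refine Prod.ext e1 ?_
    have h4 := h3.2
    rw [e1] at h4
    have h5 := (one_sub_cos_pos h2).ne'
    rw [div_left_inj' h5] at h4
    linarith

theorem HS_surj {H : Set ℍ} (hH : IsHorocycle H) :
    ∃ v : ℝ × ℝ, 0 ≤ v.1 ∧ v.1 < 2 * π ∧ 0 < v.2 ∧ HS v = H := by
  rcases hH with ⟨c, hc, rfl⟩ | ⟨x, r, hr, rfl⟩
  · refine ⟨(0, 1 / c), le_rfl, by positivity, by positivity, ?_⟩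
    rw [HS_hline (by simp) (by positivity)]
    congr 1
    simp only
    field_simp
  · have hx : (0 : ℝ) < x ^ 2 + 1 := by positivity
    obtain ⟨θ, h1, h2⟩ := exists_angle (c := (x ^ 2 - 1) / (x ^ 2 + 1))
      (s := 2 * x / (x ^ 2 + 1)) (by field_simp; ring)
    obtain ⟨m, hm, -⟩ := existsUnique_add_zsmul_mem_Ico (show (0 : ℝ) < 2 * π by positivity) θ 0
    rw [zsmul_eq_mul, zero_add] at hm
    have h3 : cos (θ + m * (2 * π)) = (x ^ 2 - 1) / (x ^ 2 + 1) := by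
      rw [cos_add_int_mul_two_pi, h1]
    have h4 : sin (θ + m * (2 * π)) = 2 * x / (x ^ 2 + 1) := by
      rw [sin_add_int_mul_two_pi, h2]
    have h5 : 1 - cos (θ + m * (2 * π)) = 2 / (x ^ 2 + 1) := by
      rw [h3]
      field_simp
      ring
    have h6 : cos (θ + m * (2 * π)) ≠ 1 := by
      intro h7
      rw [h7, sub_self] at h5
      have : (0 : ℝ) < 2 / (x ^ 2 + 1) := by positivity
      linarith
    refine ⟨(θ + m * (2 * π), 2 * r / (x ^ 2 + 1)), hm.1, hm.2, by positivity, ?_⟩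
    rw [HS_circ h6]
    simp only
    rw [h5, h4]
    unfold C
    simp only
    have e1 : 2 * x / (x ^ 2 + 1) / (2 / (x ^ 2 + 1)) = x := by field_simp
    have e2 : 2 * (2 * r / (x ^ 2 + 1)) / (2 / (x ^ 2 + 1)) / 2 = r := by field_simp
    rw [e1, e2]

theorem HS_horo {v : ℝ × ℝ} (hv : 0 < v.2) : IsHorocycle (HS v) := by
  by_cases h : cos v.1 = 1
  · rw [HS_hline h hv]
    exact Or.inl ⟨_, by positivity, rfl⟩
  · rw [HS_circ h]
    have := one_sub_cos_pos h
    exact Or.inr ⟨_, _, by simp only; positivity, rfl⟩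

open Classical in
theorem lev_sub_bel (P : Finset ℍ) (v : ℝ × ℝ) :
    lev P fn v.1 v.2 - bel P fn v.1 v.2 = #{z ∈ P | z ∈ HS v} := by
  have h1 : ({u ∈ P | fn u v.1 ≤ v.2} : Finset ℍ) =
      {u ∈ P | fn u v.1 < v.2} ∪ {z ∈ P | z ∈ HS v} := by
    ext u
    rw [Finset.mem_union, Finset.mem_filter, Finset.mem_filter, Finset.mem_filter, mem_HS]
    constructor
    · rintro ⟨h1, h2⟩
      rcases lt_or_eq_of_le h2 with h3 | h3
      · exact Or.inl ⟨h1, h3⟩
      · exact Or.inr ⟨h1, h3⟩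
    · rintro (⟨h1, h2⟩ | ⟨h1, h2⟩)
      · exact ⟨h1, h2.le⟩
      · exact ⟨h1, h2.le⟩
  have h2 : Disjoint ({u ∈ P | fn u v.1 < v.2} : Finset ℍ) {z ∈ P | z ∈ HS v} := by
    rw [Finset.disjoint_left]
    intro u hu hu'
    rw [Finset.mem_filter] at hu hu'
    exact absurd (mem_HS.mp hu'.2) hu.2.ne
  unfold lev bel
  rw [h1, Finset.card_union_of_disjoint h2]
  omega

open Classical in
/-- the sharp Melchior inequality -/
theorem sharp (P : Finset ℍ) (hP : 2 ≤ #P) (T : Finset (Set ℍ))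
    (hT : ∀ H, H ∈ T ↔ H ∈ determined P) : (∑ H ∈ T, #{z ∈ P | z ∈ H}) + 2 ≤ 3 * #T := by
  set S : Set (ℝ × ℝ) := {v | 0 ≤ v.1 ∧ v.1 < 2 * π ∧ bel P fn v.1 v.2 + 2 ≤ lev P fn v.1 v.2}
    with hS
  have hpos : ∀ v ∈ S, 0 < v.2 ∧ HS v ∈ determined P := by
    intro v hv
    have h1 := lev_sub_bel P v
    have h2 : 1 < #{z ∈ P | z ∈ HS v} := by
      have := hv.2.2
      omega
    obtain ⟨z, hz, w, hw, hne⟩ := Finset.one_lt_card.mp h2
    rw [Finset.mem_filter] at hz hw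
    have h3 : 0 < v.2 := by
      rw [← mem_HS.mp hz.2]
      exact fn_pos z v.1
    exact ⟨h3, HS_horo h3, z, hz.1, w, hw.1, hne, hz.2, hw.2⟩
  have hinj : Set.InjOn HS S := by
    intro v hv w hw hvw
    exact HS_inj hv.1 hv.2.1 (hpos v hv).1 hw.1 hw.2.1 (hpos w hw).1 hvw
  have hfin : S.Finite := by
    refine Set.Finite.of_finite_image ((finite_det P).subset ?_) hinj
    rintro H ⟨v, hv, rfl⟩
    exact (hpos v hv).2
  set V := hfin.toFinset with hVdef
  have hV : IsVer P fn (2 * π) V := by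
    intro v
    rw [hVdef, Set.Finite.mem_toFinset]
    rfl
  have h1 := melchior_sharp (arr hP) hV
  have h2 : T = V.image HS := by
    ext H
    rw [hT, Finset.mem_image]
    constructor
    · intro hH
      obtain ⟨v, hv1, hv2, hv3, rfl⟩ := HS_surj hH.1
      refine ⟨v, ?_, rfl⟩
      rw [hVdef, Set.Finite.mem_toFinset]
      obtain ⟨-, p, hp, q, hq, hne, hpH, hqH⟩ := hH
      have h3 : 1 < #{z ∈ P | z ∈ HS v} := Finset.one_lt_card.mpr
        ⟨p, Finset.mem_filter.mpr ⟨hp, hpH⟩, q, Finset.mem_filter.mpr ⟨hq, hqH⟩, hne⟩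
      rw [← lev_sub_bel P v] at h3
      exact ⟨hv1, hv2, by omega⟩
    · rintro ⟨v, hv, rfl⟩
      rw [hVdef, Set.Finite.mem_toFinset] at hv
      exact (hpos v hv).2
  have hinj' : Set.InjOn HS (V : Set (ℝ × ℝ)) := by
    rw [hVdef, Set.Finite.coe_toFinset]
    exact hinj
  rw [h2, Finset.card_image_of_injOn hinj', Finset.sum_image hinj']
  have h3 : ∑ v ∈ V, #{z ∈ P | z ∈ HS v} = ∑ v ∈ V, (lev P fn v.1 v.2 - bel P fn v.1 v.2) :=
    Finset.sum_congr rfl fun v _ => (lev_sub_bel P v).symm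
  rw [h3]
  exact h1

end Pool.Agent.HoroO
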