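import Pool.Agent.HoroO.Count

set_option autoImplicit false

/-!
# The curves of the points of the hyperbolic plane

The horocycles are the sets `fn z θ = s`, where `fn z` is the trigonometric polynomial
`cA z + cB z cos θ + cC z sin θ`.
-/

open Finset UpperHalfPlane Real

namespace Pool.Agent.HoroO

/-- coefficient -/
noncomputable def cA (z : ℍ) : ℝ := (1 + z.re ^ 2 + z.im ^ 2) / (2 * z.im)
/-- coefficient -/
noncomputable def cB (z : ℍ) : ℝ := (1 - z.re ^ 2 - z.im ^ 2) / (2 * z.im)
/-- coefficient -/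
noncomputable def cC (z : ℍ) : ℝ := -z.re / z.im

/-- the curve of `z` -/
noncomputable def fn (z : ℍ) (θ : ℝ) : ℝ := cA z + cB z * cos θ + cC z * sin θ

theorem cA_pos (z : ℍ) : 0 < cA z := by
  have := z.im_pos
  unfold cA
  positivity

theorem hyp (z : ℍ) : cA z ^ 2 - cB z ^ 2 - cC z ^ 2 = 1 := by
  have := z.im_pos.ne'
  unfold cA cB cC
  field_simp
  ring

theorem inner_eq (z w : ℍ) : cA z * cA w - cB z * cB w - cC z * cC w - 1 =
    ((z.re - w.re) ^ 2 + (z.im - w.im) ^ 2) / (2 * z.im * w.im) := by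
  have := z.im_pos.ne'
  have := w.im_pos.ne'
  unfold cA cB cC
  field_simp
  ring

theorem inner_pos {z w : ℍ} (h : z ≠ w) : 0 < cA z * cA w - cB z * cB w - cC z * cC w - 1 := by
  rw [inner_eq]
  have h1 := z.im_pos
  have h2 := w.im_pos
  refine div_pos ?_ (by positivity)
  by_contra hcon
  rw [not_lt] at hcon
  have h3 : z.re - w.re = 0 := by
    have : (z.re - w.re) ^ 2 = 0 := by nlinarith [sq_nonneg (z.re - w.re), sq_nonneg (z.im - w.im)]
    exact pow_eq_zero_iff two_ne_zero |>.mp this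
  have h4 : z.im - w.im = 0 := by
    have : (z.im - w.im) ^ 2 = 0 := by nlinarith [sq_nonneg (z.re - w.re), sq_nonneg (z.im - w.im)]
    exact pow_eq_zero_iff two_ne_zero |>.mp this
  exact h (UpperHalfPlane.ext (Complex.ext (sub_eq_zero.mp h3) (sub_eq_zero.mp h4)))

theorem exists_angle {c s : ℝ} (h : c ^ 2 + s ^ 2 = 1) : ∃ θ : ℝ, cos θ = c ∧ sin θ = s := by
  have hc1 : -1 ≤ c := by nlinarith [sq_nonneg s]
  have hc2 : c ≤ 1 := by nlinarith [sq_nonneg s]
  have hs : Real.sqrt (1 - c ^ 2) = |s| := by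
    rw [show 1 - c ^ 2 = s ^ 2 by linarith, Real.sqrt_sq_eq_abs]
  rcases le_total 0 s with h1 | h1
  · refine ⟨arccos c, cos_arccos hc1 hc2, ?_⟩
    rw [sin_arccos, hs, abs_of_nonneg h1]
  · refine ⟨-arccos c, by rw [cos_neg, cos_arccos hc1 hc2], ?_⟩
    rw [sin_neg, sin_arccos, hs, abs_of_nonpos h1, neg_neg]

theorem two_mul_fn_pos (z : ℍ) (θ : ℝ) : 1 < 2 * cA z * fn z θ := by
  have h1 := hyp z
  have h2 := cA_pos z
  have h3 := sin_sq_add_cos_sq θ
  set t := cB z * cos θ + cC z * sin θ with ht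
  have hf : fn z θ = cA z + t := by
    unfold fn
    rw [ht]
    ring
  have h4 : t ^ 2 ≤ cA z ^ 2 - 1 := by
    have : t ^ 2 + (cB z * sin θ - cC z * cos θ) ^ 2 = cB z ^ 2 + cC z ^ 2 := by
      rw [ht]
      linear_combination (cB z ^ 2 + cC z ^ 2) * h3
    nlinarith [sq_nonneg (cB z * sin θ - cC z * cos θ)]
  rw [hf]
  by_contra hcon
  rw [not_lt] at hcon
  have h5 : 2 * cA z * t ≤ 1 - 2 * cA z ^ 2 := by nlinarith
  have h6 : 1 ≤ cA z ^ 2 := by nlinarith [sq_nonneg t]
  have h7 : (2 * cA z ^ 2 - 1) ^ 2 ≤ (2 * cA z * t) ^ 2 := by nlinarith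
  nlinarith [mul_le_mul_of_nonneg_left h4 (show (0 : ℝ) ≤ 4 * cA z ^ 2 by positivity)]

theorem fn_pos (z : ℍ) (θ : ℝ) : 0 < fn z θ := by
  have h1 := two_mul_fn_pos z θ
  have h2 := cA_pos z
  by_contra hcon
  rw [not_lt] at hcon
  have : 2 * cA z * fn z θ ≤ 0 := mul_nonpos_of_nonneg_of_nonpos (by linarith) hcon
  linarith

theorem fn_cont (z : ℍ) : Continuous (fn z) := by
  unfold fn
  fun_prop

/-- every other curve is above somewhere -/
theorem exists_lt {z w : ℍ} (h : z ≠ w) : ∃ θ, fn z θ < fn w θ := by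
  have h1 := inner_pos h
  have hz := hyp z
  have hw := hyp w
  set a := cA w - cA z with ha
  set b := cB w - cB z with hb
  set c := cC w - cC z with hc
  have h2 : a ^ 2 < b ^ 2 + c ^ 2 := by
    rw [ha, hb, hc]
    nlinarith
  set r := Real.sqrt (b ^ 2 + c ^ 2) with hr
  have hr2 : r ^ 2 = b ^ 2 + c ^ 2 := Real.sq_sqrt (by positivity)
  have hr0 : 0 < r := Real.sqrt_pos.mpr (lt_of_le_of_lt (sq_nonneg a) h2)
  obtain ⟨θ, h3, h4⟩ := exists_angle (c := b / r) (s := c / r) (by
    rw [div_pow, div_pow, ← add_div, hr2, div_self]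
    rw [← hr2]
    positivity)
  refine ⟨θ, ?_⟩
  have h5 : fn w θ - fn z θ = a + r := by
    unfold fn
    rw [h3, h4]
    have : b * (b / r) + c * (c / r) = r := by
      field_simp
      linarith
    rw [ha]
    rw [hb, hc] at this ⊢
    linear_combination this
  have h6 : -a < r := by
    nlinarith [sq_nonneg (a - r), sq_nonneg (a + r)]
  linarith

/-- a trigonometric polynomial with two zeros -/
theorem trig_pos {α β γ a b : ℝ} (hab : a < b) (hb : b < a + 2 * π)
    (h1 : α + β * cos a + γ * sin a = 0) (h2 : α + β * cos b + γ * sin b = 0)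
    (h3 : 0 < α + β * cos ((a + b) / 2) + γ * sin ((a + b) / 2)) {θ : ℝ}
    (hθ : 0 < α + β * cos θ + γ * sin θ) : ∃ m : ℤ, θ + m * (2 * π) ∈ Set.Icc a b := by
  set c := (a + b) / 2 with hc
  set k := (b - a) / 2 with hk
  have hk0 : 0 < k := by rw [hk]; linarith
  have hkp : k < π := by rw [hk]; linarith
  have ea : a = c - k := by rw [hc, hk]; ring
  have eb : b = c + k := by rw [hc, hk]; ring
  have hs : 0 < sin k := sin_pos_of_pos_of_lt_pi hk0 hkp
  rw [ea, cos_sub, sin_sub] at h1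
  rw [eb, cos_add, sin_add] at h2
  have h4 : β * sin c = γ * cos c := by
    have : sin k * (β * sin c - γ * cos c) = 0 := by linear_combination (h1 - h2) / 2
    rcases mul_eq_zero.mp this with h | h
    · exact absurd h hs.ne'
    · linarith
  set κ := β * cos c + γ * sin c with hκ
  have hsc := sin_sq_add_cos_sq c
  have h5 : β = κ * cos c := by
    rw [hκ]
    linear_combination (-β) * hsc + sin c * h4
  have h6 : γ = κ * sin c := by
    rw [hκ]
    linear_combination (-γ) * hsc - cos c * h4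
  have h7 : α = -κ * cos k := by
    have : α + κ * cos k = 0 := by
      rw [hκ]
      linear_combination (h1 + h2) / 2
    linarith
  have h8 : 0 < κ * (1 - cos k) := by
    have : α + β * cos c + γ * sin c = κ * (1 - cos k) := by
      rw [h7, hκ]
      ring
    rw [← this]
    exact h3
  have h9 : 0 < κ := by
    by_contra hcon
    rw [not_lt] at hcon
    have : 0 ≤ 1 - cos k := by linarith [cos_le_one k]
    nlinarith
  have h10 : cos k < cos (θ - c) := by
    have : α + β * cos θ + γ * sin θ = κ * (cos (θ - c) - cos k) := by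
      rw [cos_sub, h7, h5, h6]
      ring
    rw [this] at hθ
    have := (mul_pos_iff_of_pos_left h9).mp hθ
    linarith
  obtain ⟨m, hm, -⟩ := existsUnique_add_zsmul_mem_Ioc (show (0 : ℝ) < 2 * π by positivity)
    (θ - c) (-π)
  rw [zsmul_eq_mul] at hm
  have h11 : cos (θ - c + m * (2 * π)) = cos (θ - c) := cos_add_int_mul_two_pi _ _
  have h12 : |θ - c + m * (2 * π)| ≤ π := abs_le.mpr ⟨hm.1.le, by linarith [hm.2]⟩
  have h13 : |θ - c + m * (2 * π)| < k := by
    by_contra hcon
    rw [not_lt] at hcon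
    have h14 := cos_le_cos_of_nonneg_of_le_pi hk0.le h12 hcon
    rw [cos_abs, h11] at h14
    linarith
  rw [abs_lt] at h13
  exact ⟨m, by rw [ea]; linarith [h13.1], by rw [eb]; linarith [h13.2]⟩

/-- the lens condition -/
theorem lens {z g u : ℍ} {a b : ℝ} (hab : a < b) (hb : b < a + 2 * π) (h1 : fn z a = fn g a)
    (h2 : fn z b = fn g b) (h3 : ∀ x ∈ Set.Ioo a b, fn z x < fn g x)
    (h4 : ∀ x ∈ Set.Icc a b, fn u x ≤ fn z x) : u = z := by
  by_contra huz
  have hzg : z ≠ g := by
    rintro rfl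
    exact lt_irrefl _ (h3 ((a + b) / 2) ⟨by linarith, by linarith⟩)
  have hF := fn_pos z a
  have hA := two_mul_fn_pos z a
  have hz := hyp z
  set l := 1 / (2 * fn z a) with hl
  have hl0 : 0 < l := by rw [hl]; positivity
  have hlF : 2 * l * fn z a = 1 := by
    rw [hl]
    field_simp
  set μ := cA z - l with hμ
  have hμ0 : 0 < μ := by
    rw [hμ, hl, sub_pos, div_lt_iff₀ (by positivity)]
    linarith
  have hsc := sin_sq_add_cos_sq a
  have hnull : (cB z + l * cos a) ^ 2 + (cC z + l * sin a) ^ 2 = μ ^ 2 := by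
    have : fn z a = cA z + cB z * cos a + cC z * sin a := rfl
    rw [this] at hlF
    rw [hμ]
    linear_combination -hz + l ^ 2 * hsc + hlF
  obtain ⟨φ, hφ1, hφ2⟩ := exists_angle (c := -(cB z + l * cos a) / μ)
    (s := -(cC z + l * sin a) / μ) (by
      rw [div_pow, div_pow, ← add_div, neg_sq, neg_sq, hnull, div_self]
      positivity)
  have hφ1' : μ * cos φ = -(cB z + l * cos a) := by
    rw [hφ1]
    field_simp
  have hφ2' : μ * sin φ = -(cC z + l * sin a) := by
    rw [hφ2]
    field_simp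
  have hcomb : ∀ w : ℍ, (cA w - cA z) * cA z - (cB w - cB z) * cB z - (cC w - cC z) * cC z =
      l * (fn w a - fn z a) + μ * (fn w φ - fn z φ) := by
    intro w
    unfold fn
    have e1 : cA z = l + μ := by rw [hμ]; ring
    linear_combination (cA w - cA z) * e1 - (cB w - cB z) * hφ1' - (cC w - cC z) * hφ2'
  have hval : ∀ w : ℍ, (cA w - cA z) * cA z - (cB w - cB z) * cB z - (cC w - cC z) * cC z =
      cA z * cA w - cB z * cB w - cC z * cC w - 1 := by
    intro w
    linear_combination -hz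
  have hg1 := inner_pos hzg
  rw [← hval g, hcomb g, h1, sub_self, mul_zero, zero_add] at hg1
  have hg2 : 0 < fn g φ - fn z φ := (mul_pos_iff_of_pos_left hμ0).mp hg1
  obtain ⟨m, hm⟩ := trig_pos (α := cA g - cA z) (β := cB g - cB z) (γ := cC g - cC z) (θ := φ)
    hab hb (by unfold fn at h1; linarith) (by unfold fn at h2; linarith)
    (by
      have := h3 ((a + b) / 2) ⟨by linarith, by linarith⟩
      unfold fn at this
      linarith)
    (by unfold fn at hg2; linarith)
  have hu1 := inner_pos (show z ≠ u from fun h => huz h.symm)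
  rw [← hval u, hcomb u] at hu1
  have hu2 := h4 a ⟨le_rfl, hab.le⟩
  have hu3 := h4 _ hm
  have hper : ∀ w : ℍ, fn w (φ + m * (2 * π)) = fn w φ := by
    intro w
    unfold fn
    rw [cos_add_int_mul_two_pi, sin_add_int_mul_two_pi]
  rw [hper, hper] at hu3
  have hu4 : l * (fn u a - fn z a) ≤ 0 := mul_nonpos_of_nonneg_of_nonpos hl0.le (by linarith)
  have hu5 : μ * (fn u φ - fn z φ) ≤ 0 := mul_nonpos_of_nonneg_of_nonpos hμ0.le (by linarith)
  linarith

theorem arr {P : Finset ℍ} (hP : 2 ≤ #P) : Arr P fn (2 * π) where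
  cont := fn_cont
  pos := by positivity
  per := by
    intro u x
    unfold fn
    rw [cos_add_two_pi, sin_add_two_pi]
  two := hP
  lt := fun _ _ _ _ h => exists_lt h
  lens := fun _ _ _ _ _ _ _ _ hab hb h1 h2 h3 h4 => lens hab hb h1 h2 h3 h4

end Pool.Agent.HoroO
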