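import Pool.Agent.HoroO.Fin

set_option autoImplicit false

/-!
# Lower bounds for the number of horocycles from the sharp Melchior inequality
-/

open Finset UpperHalfPlane Pool.Agent.Hhelper97.Horo
open Pool.Agent.HoroB (on Ver two_le Al Al2 mem_inr pairs_all rich card_inter_le ctr cert_small level
  pt_sub two_hor)
open Pool.Agent.HoroB.Fin (C mem_C C_inj C_ne_hline finite_det Phi C_mem pos_of_mem det_cases)

namespace Pool.Agent.HoroO

theorem Phi_mem (P : Finset ℍ) : ∀ i ∈ Al2 P, Phi i ∈ determined P := by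
  classical
  intro i hi
  have h1 := Finset.mem_filter.mp hi
  rcases i with v | c
  · refine C_mem ?_
    have := h1.1
    unfold Al at this
    rw [Finset.inl_mem_disjSum] at this
    exact this
  · obtain ⟨z, hz, w, hw, hne⟩ := Finset.one_lt_card.mp (show 1 < _ from h1.2)
    rw [mem_inr] at hz hw
    refine ⟨Or.inl ⟨c, ?_, rfl⟩, z, hz.1, w, hw.1, hne, hz.2, hw.2⟩
    rw [← hz.2]
    exact z.im_pos

theorem Phi_inj (P : Finset ℍ) : Set.InjOn Phi (Al2 P : Set ((ℝ × ℝ) ⊕ ℝ)) := by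
  classical
  have hv : ∀ v, Sum.inl v ∈ Al2 P → 0 < v.2 := by
    intro v hv
    have := (Finset.mem_filter.mp hv).1
    unfold Al at this
    rw [Finset.inl_mem_disjSum] at this
    exact pos_of_mem this
  rintro (v | c) hi (w | d) hj hij
  · rw [C_inj (hv v hi) hij]
  · exact absurd hij (C_ne_hline (hv v hi) d)
  · exact absurd hij.symm (C_ne_hline (hv w hj) c)
  · obtain ⟨-, z, -, w, -, -, hz, -⟩ := Phi_mem P _ hi
    have h1 : z.im = c := hz
    have h2 : z ∈ Phi (Sum.inr d) := by rw [← hij]; exact hz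
    have h3 : z.im = d := h2
    rw [← h1, ← h3]

open Classical in
theorem Phi_surj (P : Finset ℍ) (H : Set ℍ) : H ∈ (Al2 P).image Phi ↔ H ∈ determined P := by
  rw [Finset.mem_image]
  constructor
  · rintro ⟨i, hi, rfl⟩
    exact Phi_mem P i hi
  · intro hH
    obtain ⟨-, p, hp, q, hq, hne, hpH, hqH⟩ := id hH
    rcases det_cases hH with ⟨v, hv, rfl⟩ | ⟨c, hc, rfl⟩
    · refine ⟨Sum.inl v, ?_, rfl⟩
      unfold Al2 Al
      rw [Finset.mem_filter, Finset.inl_mem_disjSum]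
      exact ⟨hv, two_le hv⟩
    · refine ⟨Sum.inr c, ?_, rfl⟩
      unfold Al2 Al
      rw [Finset.mem_filter, Finset.inr_mem_disjSum]
      refine ⟨hc, ?_⟩
      have : 1 < (Pool.Agent.HoroB.pt P (Sum.inr c)).card := Finset.one_lt_card.mpr
        ⟨p, mem_inr.mpr ⟨hp, hpH⟩, q, mem_inr.mpr ⟨hq, hqH⟩, hne⟩
      exact this

open Classical in
theorem pt_eq (P : Finset ℍ) (i : (ℝ × ℝ) ⊕ ℝ) :
    ({z ∈ P | z ∈ Phi i} : Finset ℍ) = Pool.Agent.HoroB.pt P i := by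
  rcases i with v | c
  · ext z
    rw [Finset.mem_filter]
    change (z ∈ P ∧ z ∈ C v) ↔ z ∈ on P v
    rw [mem_C, Pool.Agent.HoroB.mem_on]
  · ext z
    rw [Finset.mem_filter, mem_inr]
    rfl

theorem h_eq (P : Finset ℍ) : h P = #(Al2 P) := by
  classical
  unfold h
  rw [← Finset.card_image_of_injOn (Phi_inj P), ← Set.ncard_coe_finset]
  congr 1
  ext H
  rw [Finset.mem_coe]
  exact (Phi_surj P H).symm

/-- the sharp Melchior inequality for the index set -/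
theorem sharp2 (P : Finset ℍ) (hP : 2 ≤ #P) :
    ∑ i ∈ Al2 P, #(Pool.Agent.HoroB.pt P i) + 2 ≤ 3 * #(Al2 P) := by
  classical
  have h1 := sharp P hP ((Al2 P).image Phi) (Phi_surj P)
  rw [Finset.card_image_of_injOn (Phi_inj P), Finset.sum_image (Phi_inj P)] at h1
  simp only [pt_eq] at h1
  exact h1

theorem pairs2 (P : Finset ℍ) : 2 * (#P * #P - #P) ≤
    ∑ i ∈ Al2 P, (#(Pool.Agent.HoroB.pt P i) * #(Pool.Agent.HoroB.pt P i) -
      #(Pool.Agent.HoroB.pt P i)) := by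
  classical
  refine (pairs_all P).trans (le_of_eq ?_)
  unfold Al2
  rw [Finset.sum_filter]
  refine Finset.sum_congr rfl fun i _ => ?_
  split_ifs with h
  · rfl
  · have h2 : #(Pool.Agent.HoroB.pt P i) = 0 ∨ #(Pool.Agent.HoroB.pt P i) = 1 := by omega
    rcases h2 with h2 | h2 <;> rw [h2] <;> norm_num

/-- sets without rich horocycles -/
theorem few2 (P : Finset ℍ) (hP : 2 ≤ #P) {M : ℕ}
    (hM : ∀ i ∈ Al2 P, #(Pool.Agent.HoroB.pt P i) ≤ M) :
    2 * (#P * #P - #P) + 2 * (M + 1) ≤ (M + 3) * #(Al2 P) := by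
  classical
  have h1 := pairs2 P
  have h2 := sharp2 P hP
  have h3 : ∑ i ∈ Al2 P, (#(Pool.Agent.HoroB.pt P i) * #(Pool.Agent.HoroB.pt P i) -
      #(Pool.Agent.HoroB.pt P i)) + 2 * M * #(Al2 P) ≤
      (M + 1) * ∑ i ∈ Al2 P, #(Pool.Agent.HoroB.pt P i) := by
    have e1 : 2 * M * #(Al2 P) = ∑ _i ∈ Al2 P, 2 * M := by
      rw [Finset.sum_const, smul_eq_mul, mul_comm]
    rw [e1, ← Finset.sum_add_distrib, Finset.mul_sum]
    refine Finset.sum_le_sum fun i hi => ?_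
    have a1 := hM i hi
    have a2 : 2 ≤ #(Pool.Agent.HoroB.pt P i) := (Finset.mem_filter.mp hi).2
    set k := #(Pool.Agent.HoroB.pt P i)
    have a3 : k ≤ k * k := Nat.le_mul_self k
    zify [a3]
    have b1 : (0 : ℤ) ≤ (M : ℤ) - k := by
      have : (k : ℤ) ≤ M := by exact_mod_cast a1
      linarith
    have b2 : (0 : ℤ) ≤ (k : ℤ) - 2 := by
      have : (2 : ℤ) ≤ k := by exact_mod_cast a2
      linarith
    nlinarith [mul_nonneg b1 b2]
  have h4 : (M + 1) * (∑ i ∈ Al2 P, #(Pool.Agent.HoroB.pt P i) + 2) ≤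
      (M + 1) * (3 * #(Al2 P)) := Nat.mul_le_mul_left _ h2
  nlinarith

open Classical in
/-- lower bound for the number of horocycles with exactly two points -/
theorem ordinary (P : Finset ℍ) (hP : 2 ≤ #P) (T : Finset (Set ℍ))
    (hT : ∀ H, H ∈ T ↔ H ∈ determined P) :
    (∑ H ∈ T, (#{z ∈ P | z ∈ H} - 3)) + 2 ≤ #{H ∈ T | #{z ∈ P | z ∈ H} = 2} := by
  have h1 := sharp P hP T hT
  have h2 : ∑ H ∈ T, #{z ∈ P | z ∈ H} + #{H ∈ T | #{z ∈ P | z ∈ H} = 2} =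
      3 * #T + ∑ H ∈ T, (#{z ∈ P | z ∈ H} - 3) := by
    have e1 : 3 * #T = ∑ _H ∈ T, 3 := by rw [Finset.sum_const, smul_eq_mul, mul_comm]
    rw [Finset.card_filter, e1, ← Finset.sum_add_distrib, ← Finset.sum_add_distrib]
    refine Finset.sum_congr rfl fun H hH => ?_
    have h3 : 2 ≤ #{z ∈ P | z ∈ H} := by
      obtain ⟨-, p, hp, q, hq, hne, hpH, hqH⟩ := (hT H).mp hH
      have : 1 < #{z ∈ P | z ∈ H} := Finset.one_lt_card.mpr
        ⟨p, Finset.mem_filter.mpr ⟨hp, hpH⟩, q, Finset.mem_filter.mpr ⟨hq, hqH⟩, hne⟩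
      exact this
    split_ifs with h4
    · omega
    · omega
  omega

open Classical in
theorem few3 (P : Finset ℍ) (M : ℕ) (hP : 2 ≤ #P)
    (hM : ∀ H, IsHorocycle H → #{z ∈ P | z ∈ H} ≤ M) :
    2 * (#P * (#P - 1)) + 2 * (M + 1) ≤ (M + 3) * h P := by
  rw [h_eq, Nat.mul_sub, mul_one]
  refine few2 P hP fun i hi => ?_
  rw [← pt_eq]
  exact hM _ (Phi_mem P i hi).1

/-- the inequality with all levels -/
theorem levels (P : Finset ℍ) {A : ℕ} (hA : ∀ i ∈ Al2 P, #(Pool.Agent.HoroB.pt P i) ≤ A)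
    (hA0 : 67 ≤ A) (hP : 2 ≤ #P) :
    ((#P : ℝ) * #P - #P) ≤ 107 / 10 * (#(Al2 P) : ℝ) - 129 / 10 + ((A : ℝ) - 13) * #P / 2 +
      177 / 1000 * (13 / 5) ^ 2 * (2 * (#P : ℝ)) * ((A : ℝ) - 2) := by
  classical
  set L := ({c ∈ P.image UpperHalfPlane.im | 2 ≤ #(Pool.Agent.HoroB.pt P (Sum.inr c))} : Finset ℝ)
    with hL
  have hd : Al2 P = (Ver P).disjSum L := by
    ext i
    unfold Al2 Al
    rcases i with v | c
    · rw [Finset.mem_filter, Finset.inl_mem_disjSum, Finset.inl_mem_disjSum]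
      exact ⟨fun h => h.1, fun h => ⟨h, two_le h⟩⟩
    · rw [Finset.mem_filter, Finset.inr_mem_disjSum, Finset.inr_mem_disjSum, hL, Finset.mem_filter]
  have hAr : (67 : ℝ) ≤ A := by exact_mod_cast hA0
  -- real centres
  have h1 : ∑ v ∈ Ver P, (#(on P v) : ℝ) * ((#(on P v) : ℝ) - 1) / 2 ≤
      ∑ v ∈ Ver P, (107 / 10 + 129 / 20 * ((#(on P v) : ℝ) - 3)) +
        177 / 1000 * (13 / 5) ^ 2 * (2 * (#P : ℝ)) * ((A : ℝ) - 2) := by
    have i1 : ∑ v ∈ Ver P, (#(on P v) : ℝ) * ((#(on P v) : ℝ) - 1) / 2 ≤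
        ∑ v ∈ Ver P, ((107 / 10 + 129 / 20 * ((#(on P v) : ℝ) - 3)) +
          ∑ K ∈ Finset.Ico 3 (A + 1), ctr #(on P v) K) := by
      refine Finset.sum_le_sum fun v hv => ?_
      have h2 := cert_small (two_le hv) (show #(on P v) < A + 1 from Nat.lt_succ_iff.mpr
        (hA (Sum.inl v) (by rw [hd, Finset.inl_mem_disjSum]; exact hv)))
      linarith
    rw [Finset.sum_add_distrib] at i1
    refine i1.trans (add_le_add le_rfl ?_)
    rw [Finset.sum_comm]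
    calc ∑ K ∈ Finset.Ico 3 (A + 1), ∑ v ∈ Ver P, ctr #(on P v) K
        ≤ ∑ _K ∈ Finset.Ico 3 (A + 1), 177 / 1000 * (13 / 5) ^ 2 * (2 * (#P : ℝ)) :=
          Finset.sum_le_sum fun K hK => level P (Finset.mem_Ico.mp hK).1
      _ = ((A + 1 - 3 : ℕ) : ℝ) * (177 / 1000 * (13 / 5) ^ 2 * (2 * (#P : ℝ))) := by
          rw [Finset.sum_const, Nat.card_Ico, nsmul_eq_mul]
      _ = _ := by
          rw [Nat.cast_sub (by omega)]
          push_cast
          ring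
  -- centre at infinity
  have h2 : ∑ c ∈ L, (#(Pool.Agent.HoroB.pt P (Sum.inr c)) : ℝ) *
      ((#(Pool.Agent.HoroB.pt P (Sum.inr c)) : ℝ) - 1) / 2 ≤
      ∑ c ∈ L, (107 / 10 + 129 / 20 * ((#(Pool.Agent.HoroB.pt P (Sum.inr c)) : ℝ) - 3)) +
        ((A : ℝ) - 13) * #P / 2 := by
    have i1 : ∀ c ∈ L, (#(Pool.Agent.HoroB.pt P (Sum.inr c)) : ℝ) *
        ((#(Pool.Agent.HoroB.pt P (Sum.inr c)) : ℝ) - 1) / 2 ≤
        (107 / 10 + 129 / 20 * ((#(Pool.Agent.HoroB.pt P (Sum.inr c)) : ℝ) - 3)) +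
        ((A : ℝ) - 13) / 2 * #(Pool.Agent.HoroB.pt P (Sum.inr c)) := by
      intro c hc
      have a1 : (#(Pool.Agent.HoroB.pt P (Sum.inr c)) : ℝ) ≤ A := by
        exact_mod_cast hA (Sum.inr c) (by rw [hd, Finset.inr_mem_disjSum]; exact hc)
      have a2 : (2 : ℝ) ≤ (#(Pool.Agent.HoroB.pt P (Sum.inr c)) : ℝ) := by
        exact_mod_cast (Finset.mem_filter.mp hc).2
      set l : ℝ := (#(Pool.Agent.HoroB.pt P (Sum.inr c)) : ℝ)
      nlinarith [mul_nonneg (sub_nonneg.mpr a1) (sub_nonneg.mpr a2)]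
    have i2 := Finset.sum_le_sum i1
    rw [Finset.sum_add_distrib, ← Finset.mul_sum] at i2
    have i3 : ∑ c ∈ L, (#(Pool.Agent.HoroB.pt P (Sum.inr c)) : ℝ) ≤ #P := by
      have : ∑ c ∈ L, #(Pool.Agent.HoroB.pt P (Sum.inr c)) ≤ #P := by
        calc _ ≤ ∑ c ∈ P.image UpperHalfPlane.im, #(Pool.Agent.HoroB.pt P (Sum.inr c)) :=
              Finset.sum_le_sum_of_subset (Finset.filter_subset _ _)
          _ = #P := (Finset.card_eq_sum_card_image UpperHalfPlane.im P).symm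
      exact_mod_cast this
    have i4 := mul_le_mul_of_nonneg_left i3 (show (0 : ℝ) ≤ ((A : ℝ) - 13) / 2 by linarith)
    linarith
  -- all pairs
  have h3 : 2 * ((#P : ℝ) * #P - #P) ≤ ∑ i ∈ Al2 P, (#(Pool.Agent.HoroB.pt P i) : ℝ) *
      ((#(Pool.Agent.HoroB.pt P i) : ℝ) - 1) := by
    have i1 := pairs2 P
    have i2 : ((2 * (#P * #P - #P) : ℕ) : ℝ) ≤ ((∑ i ∈ Al2 P, (#(Pool.Agent.HoroB.pt P i) *
        #(Pool.Agent.HoroB.pt P i) - #(Pool.Agent.HoroB.pt P i)) : ℕ) : ℝ) := by exact_mod_cast i1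
    push_cast [Nat.cast_sub (Nat.le_mul_self (#P))] at i2
    refine i2.trans (le_of_eq (Finset.sum_congr rfl fun i _ => ?_))
    rw [Nat.cast_sub (Nat.le_mul_self _)]
    push_cast
    ring
  have h4 : (∑ i ∈ Al2 P, (#(Pool.Agent.HoroB.pt P i) : ℝ)) + 2 ≤ 3 * (#(Al2 P) : ℝ) := by
    exact_mod_cast sharp2 P hP
  have h5 : ∑ i ∈ Al2 P, (#(Pool.Agent.HoroB.pt P i) : ℝ) *
      ((#(Pool.Agent.HoroB.pt P i) : ℝ) - 1) / 2 ≤
      ∑ i ∈ Al2 P, (107 / 10 + 129 / 20 * ((#(Pool.Agent.HoroB.pt P i) : ℝ) - 3)) +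
        ((A : ℝ) - 13) * #P / 2 +
        177 / 1000 * (13 / 5) ^ 2 * (2 * (#P : ℝ)) * ((A : ℝ) - 2) := by
    rw [hd, Finset.sum_disjSum, Finset.sum_disjSum]
    have e1 : ∀ v, Pool.Agent.HoroB.pt P (Sum.inl v) = on P v := fun v => rfl
    simp only [e1]
    linarith
  rw [← Finset.sum_div, Finset.sum_add_distrib, Finset.sum_const, nsmul_eq_mul, ← Finset.mul_sum,
    Finset.sum_sub_distrib, Finset.sum_const, nsmul_eq_mul] at h5
  linarith

/-- the uniform bound -/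
theorem uniform35 (P : Finset ℍ) (hP : 2 ≤ #P) : #P ^ 2 ≤ 35 * h P := by
  classical
  rw [h_eq]
  by_contra hcon
  rw [not_le] at hcon
  set n := #P with hn
  set A := (Al2 P).sup fun i => #(Pool.Agent.HoroB.pt P i) with hAdef
  have hA : ∀ i ∈ Al2 P, #(Pool.Agent.HoroB.pt P i) ≤ A := fun i hi =>
    Finset.le_sup (f := fun i => #(Pool.Agent.HoroB.pt P i)) hi
  obtain ⟨z, hz, w, hw, hzw⟩ := Finset.one_lt_card.mp (show 1 < #P by omega)
  obtain ⟨i0, hi0, -, -, -, hq0, -⟩ := two_hor hz hw hzw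
  have hi0' : i0 ∈ Al2 P := by
    refine Finset.mem_filter.mpr ⟨hi0, ?_⟩
    have h1 : 1 < #(Pool.Agent.HoroB.pt P i0) :=
      Finset.one_lt_card.mpr ⟨z, hq0.1, w, hq0.2, hzw⟩
    exact h1
  obtain ⟨i1, hi1, hi1A⟩ := Finset.exists_mem_eq_sup (Al2 P) ⟨i0, hi0'⟩
    fun i => #(Pool.Agent.HoroB.pt P i)
  rw [← hAdef] at hi1A
  have hA2 : 2 ≤ A := by
    rw [hi1A]
    exact (Finset.mem_filter.mp hi1).2
  have hAn : A ≤ n := by
    rw [hi1A]
    exact Finset.card_le_card (pt_sub P i1)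
  have ha := rich P hi1
  rw [← hi1A] at ha
  have hf := few2 P hP hA
  rw [← hn] at hf
  rw [pow_two] at hcon
  have ha' : 35 * (A * A - A + 2) < 2 * (n * n) := by omega
  have haz : (35 : ℤ) * ((A : ℤ) * A - A + 2) < 2 * ((n : ℤ) * n) := by
    have : ((35 * (A * A - A + 2) : ℕ) : ℤ) < ((2 * (n * n) : ℕ) : ℤ) := by exact_mod_cast ha'
    push_cast [Nat.cast_sub (Nat.le_mul_self A)] at this
    exact this
  have hfz : 2 * ((n : ℤ) * n - n) + 2 * (A + 1) ≤ (A + 3) * (#(Al2 P) : ℤ) := by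
    have : ((2 * (n * n - n) + 2 * (A + 1) : ℕ) : ℤ) ≤ (((A + 3) * #(Al2 P) : ℕ) : ℤ) := by
      exact_mod_cast hf
    push_cast [Nat.cast_sub (Nat.le_mul_self n)] at this
    exact this
  have hcz : (35 : ℤ) * (#(Al2 P) : ℤ) < (n : ℤ) * n := by exact_mod_cast hcon
  have hAz : (2 : ℤ) ≤ A := by exact_mod_cast hA2
  have hnz : (2 : ℤ) ≤ n := by exact_mod_cast hP
  have hAnz : (A : ℤ) ≤ n := by exact_mod_cast hAn
  have h67 : 67 ≤ A := by
    by_contra hlt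
    have hlt' : A ≤ 66 := by omega
    have hltz : (A : ℤ) ≤ 66 := by exact_mod_cast hlt'
    have h1 : 35 * (2 * ((n : ℤ) * n - n) + 2 * (A + 1)) < (A + 3) * ((n : ℤ) * n) := by
      have := mul_lt_mul_of_pos_left hcz (show (0 : ℤ) < (A : ℤ) + 3 by linarith)
      nlinarith
    have h2 : (67 - (A : ℤ)) * n < 70 := by
      by_contra hc
      rw [not_lt] at hc
      have := mul_le_mul_of_nonneg_right hc (show (0 : ℤ) ≤ n by linarith)
      nlinarith
    have h3 : (n : ℤ) < 70 := by nlinarith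
    have h4 : (A : ℤ) ≤ 65 → False := by
      intro h5
      nlinarith [mul_nonneg (show (0 : ℤ) ≤ 65 - (A : ℤ) by linarith)
        (show (0 : ℤ) ≤ (A : ℤ) - 2 by linarith)]
    have h5 : (A : ℤ) = 66 := by
      by_contra hne
      exact h4 (by omega)
    rw [h5] at haz
    nlinarith
  have hl := levels P hA h67 hP
  rw [← hn] at hl
  have r1 : (67 : ℝ) ≤ A := by exact_mod_cast h67
  have r2 : (35 : ℝ) * (#(Al2 P) : ℝ) < (n : ℝ) * n := by exact_mod_cast hcz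
  have r3 : (35 : ℝ) * ((A : ℝ) * A - A + 2) < 2 * ((n : ℝ) * n) := by exact_mod_cast haz
  have r4 : (2 : ℝ) ≤ n := by exact_mod_cast hnz
  have r5 : (n : ℝ) * (694285 / 1000000 * n + 1028 / 100) < n * (289305 / 100000 * A) := by
    nlinarith
  have r6 : 694285 / 1000000 * (n : ℝ) + 1028 / 100 < 289305 / 100000 * A :=
    lt_of_mul_lt_mul_left r5 (by linarith)
  have r7 : 239983 / 1000000 * (n : ℝ) + 3 ≤ (A : ℝ) - 1 / 2 := by linarith
  have r8 : (239983 / 1000000 * (n : ℝ) + 3) ^ 2 ≤ ((A : ℝ) - 1 / 2) ^ 2 :=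
    pow_le_pow_left₀ (by linarith) r7 2
  nlinarith

end Pool.Agent.HoroO
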