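import Mathlib

set_option autoImplicit false

/-!
# Periodic arrangements of graphs of functions: the curves of given rank
-/

open Finset Filter Topology

namespace Pool.Agent.HoroO

variable {α : Type*} {P : Finset α} {F : α → ℝ → ℝ}

open Classical in
/-- number of curves strictly below the point -/
noncomputable def bel (P : Finset α) (F : α → ℝ → ℝ) (x s : ℝ) : ℕ := #{u ∈ P | F u x < s}

open Classical in
/-- number of curves below or through the point -/
noncomputable def lev (P : Finset α) (F : α → ℝ → ℝ) (x s : ℝ) : ℕ := #{u ∈ P | F u x ≤ s}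

/-- `z` is the only curve of rank `j` at `x`; the curves below it are those of `B` -/
def Sim (P : Finset α) (F : α → ℝ → ℝ) (j : ℕ) (z : α) (B : Finset α) (x : ℝ) : Prop :=
  z ∈ P ∧ B.card + 1 = j ∧ B ⊆ P ∧ (∀ u ∈ P, u ∈ B ↔ F u x < F z x) ∧
    ∀ u ∈ P, u ≠ z → F u x ≠ F z x

theorem bel_le_lev (x s : ℝ) : bel P F x s ≤ lev P F x s := by
  classical
  unfold bel lev
  refine Finset.card_le_card ?_
  intro u hu
  rw [Finset.mem_filter] at hu ⊢
  exact ⟨hu.1, hu.2.le⟩

theorem lev_le_card (x s : ℝ) : lev P F x s ≤ #P := by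
  classical
  exact Finset.card_filter_le _ _

theorem lev_le_bel {x s t : ℝ} (h : s < t) : lev P F x s ≤ bel P F x t := by
  classical
  unfold bel lev
  refine Finset.card_le_card ?_
  intro u hu
  rw [Finset.mem_filter] at hu ⊢
  exact ⟨hu.1, hu.2.trans_lt h⟩

theorem exists_rank {j : ℕ} (h1 : 1 ≤ j) (h2 : j ≤ #P) (x : ℝ) :
    ∃ z ∈ P, bel P F x (F z x) < j ∧ j ≤ lev P F x (F z x) := by
  classical
  have hne : P.Nonempty := Finset.card_pos.mp (by omega)
  obtain ⟨zm, hzm, hmax⟩ := Finset.exists_max_image P (fun u => F u x) hne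
  have hS : ({z ∈ P | j ≤ lev P F x (F z x)} : Finset α).Nonempty := by
    refine ⟨zm, Finset.mem_filter.mpr ⟨hzm, ?_⟩⟩
    have : ({u ∈ P | F u x ≤ F zm x} : Finset α) = P := Finset.filter_true_of_mem hmax
    unfold lev
    rw [this]
    exact h2
  obtain ⟨z, hz, hmin⟩ := Finset.exists_min_image _ (fun u => F u x) hS
  rw [Finset.mem_filter] at hz
  refine ⟨z, hz.1, ?_, hz.2⟩
  by_contra hcon
  rw [not_lt] at hcon
  have hB : ({u ∈ P | F u x < F z x} : Finset α).Nonempty :=
    Finset.card_pos.mp (by unfold bel at hcon; omega)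
  obtain ⟨w, hw, hwmax⟩ := Finset.exists_max_image _ (fun u => F u x) hB
  have hw' := Finset.mem_filter.mp hw
  have h3 : j ≤ lev P F x (F w x) := by
    refine hcon.trans ?_
    unfold bel lev
    refine Finset.card_le_card ?_
    intro u hu
    exact Finset.mem_filter.mpr ⟨(Finset.mem_filter.mp hu).1, hwmax u hu⟩
  have := hmin w (Finset.mem_filter.mpr ⟨hw'.1, h3⟩)
  exact absurd hw'.2 (not_lt.mpr this)

theorem sim_unique {j : ℕ} {z w : α} {B C : Finset α} {x : ℝ} (h1 : Sim P F j z B x)
    (h2 : Sim P F j w C x) : z = w ∧ B = C := by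
  classical
  obtain ⟨a1, a2, a3, a4, a5⟩ := h1
  obtain ⟨b1, b2, b3, b4, b5⟩ := h2
  have key : ∀ (z w : α) (B C : Finset α), z ∈ P → B.card + 1 = j → B ⊆ P →
      (∀ u ∈ P, u ∈ B ↔ F u x < F z x) → C.card + 1 = j → (∀ u ∈ P, u ∈ C ↔ F u x < F w x) →
      ¬ F z x < F w x := by
    intro z w B C a1 a2 a3 a4 b2 b4 hlt
    have h3 : insert z B ⊆ C := by
      intro u hu
      rw [Finset.mem_insert] at hu
      rcases hu with rfl | hu
      · exact (b4 _ a1).mpr hlt
      · exact (b4 u (a3 hu)).mpr (((a4 u (a3 hu)).mp hu).trans hlt)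
    have h4 : z ∉ B := fun h => lt_irrefl _ ((a4 z a1).mp h)
    have h5 := Finset.card_le_card h3
    rw [Finset.card_insert_of_notMem h4] at h5
    omega
  have e : F z x = F w x := le_antisymm (not_lt.mp (key w z C B b1 b2 b3 b4 a2 a4))
    (not_lt.mp (key z w B C a1 a2 a3 a4 b2 b4))
  have hzw : z = w := by
    by_contra hne
    exact b5 z a1 hne e
  refine ⟨hzw, ?_⟩
  ext u
  constructor
  · intro hu
    rw [b4 u (a3 hu), ← e]
    exact (a4 u (a3 hu)).mp hu
  · intro hu
    rw [a4 u (b3 hu), e]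
    exact (b4 u (b3 hu)).mp hu

theorem exists_sim {j : ℕ} (h1 : 1 ≤ j) (h2 : j ≤ #P) {x : ℝ}
    (h : ∀ s, bel P F x s < j → j ≤ lev P F x s → lev P F x s < bel P F x s + 2) :
    ∃ z B, Sim P F j z B x := by
  classical
  obtain ⟨z, hz, h3, h4⟩ := exists_rank (F := F) h1 h2 x
  have h5 := h _ h3 h4
  refine ⟨z, {u ∈ P | F u x < F z x}, hz, ?_, Finset.filter_subset _ _, ?_, ?_⟩
  · change bel P F x (F z x) + 1 = j
    omega
  · intro u hu
    rw [Finset.mem_filter]
    exact ⟨fun h => h.2, fun h => ⟨hu, h⟩⟩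
  · intro u hu hne heq
    have h6 : insert u (insert z ({u ∈ P | F u x < F z x} : Finset α)) ⊆
        ({u ∈ P | F u x ≤ F z x} : Finset α) := by
      intro v hv
      rw [Finset.mem_insert, Finset.mem_insert, Finset.mem_filter] at hv
      rw [Finset.mem_filter]
      rcases hv with rfl | rfl | hv
      · exact ⟨hu, heq.le⟩
      · exact ⟨hz, le_rfl⟩
      · exact ⟨hv.1, hv.2.le⟩
    have h7 := Finset.card_le_card h6
    have h8 : z ∉ ({u ∈ P | F u x < F z x} : Finset α) := by
      rw [Finset.mem_filter]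
      exact fun h => lt_irrefl _ h.2
    have h9 : u ∉ insert z ({u ∈ P | F u x < F z x} : Finset α) := by
      rw [Finset.mem_insert, Finset.mem_filter]
      rintro (h | h)
      · exact hne h
      · exact absurd h.2 (by rw [heq]; exact lt_irrefl _)
    rw [Finset.card_insert_of_notMem h9, Finset.card_insert_of_notMem h8] at h7
    unfold bel lev at h5
    omega

/-- the curve of rank `j` does not change on an interval without vertices at rank `j` -/
theorem const_sim (hF : ∀ u, Continuous (F u)) {j : ℕ} (h1 : 1 ≤ j) (h2 : j ≤ #P) {a b : ℝ}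
    (hab : a < b) (h : ∀ x ∈ Set.Ioo a b, ∀ s, bel P F x s < j → j ≤ lev P F x s →
      lev P F x s < bel P F x s + 2) :
    ∃ z B, ∀ x ∈ Set.Ioo a b, Sim P F j z B x := by
  classical
  have hm : (a + b) / 2 ∈ Set.Ioo a b := ⟨by linarith, by linarith⟩
  obtain ⟨z, B, hz⟩ := exists_sim h1 h2 (h _ hm)
  refine ⟨z, B, fun x hx => ?_⟩
  have key : ∀ z B, (Sim P F j z B ((a + b) / 2) ↔ Sim P F j z B x) := by
    refine (isPreconnected_Ioo (a := a) (b := b)).induction₂
      (fun x y => ∀ z B, (Sim P F j z B x ↔ Sim P F j z B y)) ?_ ?_ ?_ hm hx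
    · intro x hx
      obtain ⟨z0, B0, hs⟩ := exists_sim h1 h2 (h _ hx)
      have e2 : ∀ g ∈ P, ∀ g' ∈ P, ∀ᶠ y in 𝓝 x, (F g x < F g' x → F g y < F g' y) := by
        intro g _ g' _
        by_cases hh : F g x < F g' x
        · have := ((hF g).continuousAt (x := x)).eventually_lt ((hF g').continuousAt (x := x)) hh
          filter_upwards [this] with y hy _ using hy
        · exact Filter.Eventually.of_forall fun y h1 => absurd h1 hh
      have e2' := (Finset.eventually_all P).mpr fun g hg => (Finset.eventually_all P).mpr (e2 g hg)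
      refine (nhdsWithin_le_nhds : 𝓝[Set.Ioo a b] x ≤ 𝓝 x) ?_
      filter_upwards [e2'] with y hy
      obtain ⟨c1, c2, c3, c4, c5⟩ := hs
      have hs' : Sim P F j z0 B0 y := by
        have c6 : ∀ u ∈ P, u ∉ B0 → u ≠ z0 → F z0 x < F u x := by
          intro u hu hub hne
          rcases lt_trichotomy (F u x) (F z0 x) with h3 | h3 | h3
          · exact absurd ((c4 u hu).mpr h3) hub
          · exact absurd h3 (c5 u hu hne)
          · exact h3
        refine ⟨c1, c2, c3, fun u hu => ⟨fun hub => hy u hu z0 c1 ((c4 u hu).mp hub), ?_⟩, ?_⟩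
        · intro hlt
          by_contra hub
          by_cases hne : u = z0
          · rw [hne] at hlt
            exact lt_irrefl _ hlt
          · exact absurd (hy z0 c1 u hu (c6 u hu hub hne)) (not_lt.mpr hlt.le)
        · intro u hu hne
          by_cases hub : u ∈ B0
          · exact (hy u hu z0 c1 ((c4 u hu).mp hub)).ne
          · exact (hy z0 c1 u hu (c6 u hu hub hne)).ne'
      intro z B
      constructor
      · intro hzB
        obtain ⟨rfl, rfl⟩ := sim_unique hzB ⟨c1, c2, c3, c4, c5⟩
        exact hs'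
      · intro hzB
        obtain ⟨rfl, rfl⟩ := sim_unique hzB hs'
        exact ⟨c1, c2, c3, c4, c5⟩
    · intro x y w _ _ _ h1 h2 z B
      exact (h1 z B).trans (h2 z B)
    · intro x y _ _ h1 z B
      exact (h1 z B).symm
  exact (key z B).mp hz

/-- limits of strict inequalities -/
theorem le_of_lt_Ioo {f g : ℝ → ℝ} (hf : Continuous f) (hg : Continuous g) {a b : ℝ} (hab : a < b)
    (h : ∀ x ∈ Set.Ioo a b, f x < g x) : ∀ x ∈ Set.Icc a b, f x ≤ g x := by
  have hcl : closure (Set.Ioo a b) = Set.Icc a b := closure_Ioo hab.ne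
  intro x hx
  rw [← hcl] at hx
  exact closure_minimal (fun y hy => (h y hy).le : Set.Ioo a b ⊆ {x | f x ≤ g x})
    (isClosed_le hf hg) hx

/-- the hypotheses on the arrangement -/
structure Arr (P : Finset α) (F : α → ℝ → ℝ) (T : ℝ) : Prop where
  cont : ∀ u, Continuous (F u)
  pos : 0 < T
  per : ∀ u x, F u (x + T) = F u x
  two : 2 ≤ #P
  lt : ∀ z ∈ P, ∀ w ∈ P, z ≠ w → ∃ x, F z x < F w x
  lens : ∀ z ∈ P, ∀ g ∈ P, ∀ u ∈ P, ∀ a b : ℝ, a < b → b < a + T → F z a = F g a →
    F z b = F g b → (∀ x ∈ Set.Ioo a b, F z x < F g x) → (∀ x ∈ Set.Icc a b, F u x ≤ F z x) →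
    u = z

theorem Arr.per' {T : ℝ} (h : Arr P F T) (u : α) (x : ℝ) (m : ℤ) : F u (x + m * T) = F u x := by
  have : Function.Periodic (F u) T := fun x => h.per u x
  exact this.int_mul m x

theorem Arr.bel_per {T : ℝ} (h : Arr P F T) (x s : ℝ) (m : ℤ) :
    bel P F (x + m * T) s = bel P F x s := by
  unfold bel
  simp only [h.per']

theorem Arr.lev_per {T : ℝ} (h : Arr P F T) (x s : ℝ) (m : ℤ) :
    lev P F (x + m * T) s = lev P F x s := by
  unfold lev
  simp only [h.per']

/-- a face without vertices above and below is a digon, and it is at rank one -/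
theorem digon {T : ℝ} (h : Arr P F T) {j : ℕ} {a b s t : ℝ} (hab : a < b) (hbT : b ≤ a + T)
    (ha1 : bel P F a s < j) (ha2 : j < lev P F a s) (hb1 : bel P F b t < j)
    (hb2 : j < lev P F b t)
    (hn : ∀ x ∈ Set.Ioo a b, ∀ r, bel P F x r ≤ j → j ≤ lev P F x r →
      lev P F x r < bel P F x r + 2) : j = 1 := by
  classical
  have hj1 : 1 ≤ j := by omega
  have hj2 : j + 1 ≤ #P := (Nat.succ_le_of_lt ha2).trans (lev_le_card _ _)
  obtain ⟨z, B, hz⟩ := const_sim h.cont hj1 (by omega) hab
    fun x hx r h1 h2 => hn x hx r h1.le h2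
  obtain ⟨g, C, hg⟩ := const_sim h.cont (show 1 ≤ j + 1 by omega) hj2 hab
    fun x hx r h1 h2 => hn x hx r (by omega) (by omega)
  have hm : (a + b) / 2 ∈ Set.Ioo a b := ⟨by linarith, by linarith⟩
  obtain ⟨z1, z2, z3, z4, z5⟩ := hz _ hm
  obtain ⟨g1, g2, g3, g4, g5⟩ := hg _ hm
  have hzB : z ∉ B := fun hh => lt_irrefl _ ((z4 z z1).mp hh)
  have hgC : g ∉ C := fun hh => lt_irrefl _ ((g4 g g1).mp hh)
  have hlt : F z ((a + b) / 2) < F g ((a + b) / 2) := by
    rcases lt_trichotomy (F z ((a + b) / 2)) (F g ((a + b) / 2)) with h1 | h1 | h1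
    · exact h1
    · exfalso
      have hzg : z = g := by
        by_contra hne
        exact g5 z z1 hne h1
      have : B = C := by
        ext u
        constructor
        · intro hu
          rw [g4 u (z3 hu), ← h1]
          exact (z4 u (z3 hu)).mp hu
        · intro hu
          rw [z4 u (g3 hu), h1]
          exact (g4 u (g3 hu)).mp hu
      rw [this] at z2
      omega
    · exfalso
      have h3 : insert g C ⊆ B := by
        intro u hu
        rw [Finset.mem_insert] at hu
        rcases hu with rfl | hu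
        · exact (z4 _ g1).mpr h1
        · exact (z4 u (g3 hu)).mpr (((g4 u (g3 hu)).mp hu).trans h1)
      have h4 := Finset.card_le_card h3
      rw [Finset.card_insert_of_notMem hgC] at h4
      omega
  have hzC : z ∈ C := (g4 z z1).mpr hlt
  have hC : insert z B = C := by
    refine Finset.eq_of_subset_of_card_le ?_ ?_
    · intro u hu
      rw [Finset.mem_insert] at hu
      rcases hu with rfl | hu
      · exact hzC
      · exact (g4 u (z3 hu)).mpr (((z4 u (z3 hu)).mp hu).trans hlt)
    · rw [Finset.card_insert_of_notMem hzB]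
      omega
  have hzg : ∀ x ∈ Set.Ioo a b, F z x < F g x := fun x hx => ((hg x hx).2.2.2.1 z z1).mp hzC
  have hBz : ∀ u ∈ B, ∀ x ∈ Set.Ioo a b, F u x < F z x := fun u hu x hx =>
    ((hz x hx).2.2.2.1 u (z3 hu)).mp hu
  have hout : ∀ u ∈ P, u ∉ insert z B → ∀ x ∈ Set.Icc a b, F g x ≤ F u x := by
    intro u hu hun x hx
    by_cases hug : u = g
    · rw [hug]
    · refine le_of_lt_Ioo (h.cont g) (h.cont u) hab ?_ x hx
      intro y hy
      obtain ⟨-, -, -, y4, y5⟩ := hg y hy
      rcases lt_trichotomy (F u y) (F g y) with h3 | h3 | h3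
      · exact absurd (by rw [hC]; exact (y4 u hu).mpr h3) hun
      · exact absurd h3 (y5 u hu hug)
      · exact h3
  have hzg' := le_of_lt_Ioo (h.cont z) (h.cont g) hab hzg
  have hBz' : ∀ u ∈ B, ∀ x ∈ Set.Icc a b, F u x ≤ F z x := fun u hu =>
    le_of_lt_Ioo (h.cont u) (h.cont z) hab (hBz u hu)
  -- at a touching end both curves pass through the vertex
  have hend : ∀ c ∈ Set.Icc a b, ∀ s, bel P F c s < j → j < lev P F c s →
      F z c = s ∧ F g c = s := by
    intro c hc s hc1 hc2
    have i1 : ¬ F z c < s := by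
      intro hh
      have h3 : insert z B ⊆ ({u ∈ P | F u c < s} : Finset α) := by
        intro u hu
        rw [Finset.mem_filter]
        rw [Finset.mem_insert] at hu
        rcases hu with rfl | hu
        · exact ⟨z1, hh⟩
        · exact ⟨z3 hu, (hBz' u hu c hc).trans_lt hh⟩
      have h4 := Finset.card_le_card h3
      rw [Finset.card_insert_of_notMem hzB] at h4
      unfold bel at hc1
      omega
    have i2 : ¬ s < F z c := by
      intro hh
      have h3 : ({u ∈ P | F u c ≤ s} : Finset α) ⊆ B := by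
        intro u hu
        rw [Finset.mem_filter] at hu
        by_contra hub
        have h4 : F z c ≤ F u c := by
          by_cases huz : u = z
          · rw [huz]
          · exact (hzg' c hc).trans (hout u hu.1 (by
              rw [Finset.mem_insert, not_or]
              exact ⟨huz, hub⟩) c hc)
        linarith [hu.2]
      have h4 := Finset.card_le_card h3
      unfold lev at hc2
      omega
    have i3 : F z c = s := le_antisymm (not_lt.mp i2) (not_lt.mp i1)
    have i4 : ¬ s < F g c := by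
      intro hh
      have h3 : ({u ∈ P | F u c ≤ s} : Finset α) ⊆ insert z B := by
        intro u hu
        rw [Finset.mem_filter] at hu
        by_contra hub
        have := hout u hu.1 hub c hc
        linarith [hu.2]
      have h4 := Finset.card_le_card h3
      rw [Finset.card_insert_of_notMem hzB] at h4
      unfold lev at hc2
      omega
    have i5 := hzg' c hc
    exact ⟨i3, le_antisymm (not_lt.mp i4) (by rw [← i3]; exact i5)⟩
  have ea := hend a ⟨le_rfl, hab.le⟩ s ha1 ha2
  have eb := hend b ⟨hab.le, le_rfl⟩ t hb1 hb2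
  have hzgne : z ≠ g := by
    rintro rfl
    exact lt_irrefl _ hlt
  have hbT' : b < a + T := by
    rcases lt_or_eq_of_le hbT with h3 | h3
    · exact h3
    · exfalso
      obtain ⟨x, hx⟩ := h.lt g g1 z z1 hzgne.symm
      obtain ⟨m, hm, -⟩ := existsUnique_add_zsmul_mem_Ico h.pos x a
      rw [zsmul_eq_mul, ← h3] at hm
      have h4 := hzg' (x + m * T) ⟨hm.1, hm.2.le⟩
      rw [h.per', h.per'] at h4
      linarith
  have hB0 : B = ∅ := by
    rw [Finset.eq_empty_iff_forall_notMem]
    intro u hu
    have := h.lens z z1 g g1 u (z3 hu) a b hab hbT' (ea.1.trans ea.2.symm) (eb.1.trans eb.2.symm)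
      hzg (hBz' u hu)
    rw [this] at hu
    exact hzB hu
  rw [hB0, Finset.card_empty] at z2
  omega

end Pool.Agent.HoroO
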